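import Mathlib

/-!
An optimal 3-plane graph without an edge partition into a 2-plane graph and a forest.

Optimal 3-plane graphs are described by their structure theorem (Bekos, Kaufmann, Raftopoulou):
the crossing-free edges form a hexangulation of the sphere and every hexagonal face contains eight
of its nine diagonals, the missing one being one of the three long diagonals.
-/

namespace Pool.Agent.Results.MP_d99f1b_co.NoForestPartition

/-- The side (or corner) following `s` on the boundary of its hexagon. Corner `(F, i)` is the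
`i`-th corner of the hexagonal face `F`; side `(F, i)` leads from corner `(F, i)` to corner
`(F, i + 1)`. -/
def next {f : ℕ} (s : Fin f × Fin 6) : Fin f × Fin 6 := (s.1, s.2 + 1)

/-- A connected hexangulation of the sphere with `n` vertices and `f` faces, obtained from `f`
hexagons by glueing their sides in pairs, together with the choice of a long diagonal of each
face: the structure of an optimal 3-plane graph. -/
structure OptimalThreePlane (n f : ℕ) where
  /-- the vertex at a corner -/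
  vertex : Fin f × Fin 6 → Fin n
  /-- the side to which a side is glued -/
  opp : Fin f × Fin 6 → Fin f × Fin 6
  opp_opp : ∀ s, opp (opp s) = s
  opp_ne : ∀ s, opp s ≠ s
  /-- glued sides are traversed in opposite directions -/
  vertex_opp : ∀ s, vertex (opp s) = vertex (next s)
  /-- every vertex is the vertex of some corner -/
  vertex_surjective : Function.Surjective vertex
  /-- the corners at a vertex form a single cycle of the rotation around this vertex -/
  single_cycle : ∀ s t, vertex s = vertex t → ∃ k : ℕ, (fun r => next (opp r))^[k] s = t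
  /-- the surface is connected -/
  connected : ∀ F F' : Fin f,
    Relation.ReflTransGen (fun A B : Fin f => ∃ i j, opp (A, i) = (B, j)) F F'
  /-- Euler's formula for the sphere: `n` vertices, `3 * f` edges and `f` faces -/
  euler : n + f = 3 * f + 2
  /-- the long diagonal joining the corners `m` and `m + 3` (with `m = 0, 1, 2`) which is missing
  in the given face -/
  missing : Fin f → Fin 3

namespace OptimalThreePlane

variable {n f : ℕ} (G : OptimalThreePlane n f)

/-- `(F, i, j)` with `i < j` is a chord of the hexagonal face `F`: the corners `i` and `j` are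
not consecutive and do not form the missing long diagonal. -/
def IsChord (c : Fin f × Fin 6 × Fin 6) : Prop :=
  c.2.1.val + 2 ≤ c.2.2.val ∧ ¬ (c.2.1.val = 0 ∧ c.2.2.val = 5) ∧
    ¬ (c.2.1.val = (G.missing c.1).val ∧ c.2.2.val = (G.missing c.1).val + 3)

instance (c : Fin f × Fin 6 × Fin 6) : Decidable (G.IsChord c) := by
  unfold IsChord; infer_instance

/-- The edges: pairs of glued sides (the crossing-free edges) and chords of the faces. -/
abbrev Edge : Type :=
  {e : Sym2 (Fin f × Fin 6) // ∃ s, e = s(s, G.opp s)} ⊕ {c : Fin f × Fin 6 × Fin 6 // G.IsChord c}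

/-- `EdgeEnds e u v`: the edge `e` joins the vertices `u` and `v`. -/
def EdgeEnds : G.Edge → Fin n → Fin n → Prop
  | Sum.inl e, u, v => ∃ s ∈ e.1, u = G.vertex s ∧ v = G.vertex (next s)
  | Sum.inr c, u, v =>
      (u = G.vertex (c.1.1, c.1.2.1) ∧ v = G.vertex (c.1.1, c.1.2.2)) ∨
      (v = G.vertex (c.1.1, c.1.2.1) ∧ u = G.vertex (c.1.1, c.1.2.2))

/-- Two edges cross if they are chords of the same face whose ends alternate on its boundary. -/
def Crosses : G.Edge → G.Edge → Prop
  | Sum.inr c, Sum.inr d => c.1.1 = d.1.1 ∧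
      ((c.1.2.1 < d.1.2.1 ∧ d.1.2.1 < c.1.2.2 ∧ c.1.2.2 < d.1.2.2) ∨
       (d.1.2.1 < c.1.2.1 ∧ c.1.2.1 < d.1.2.2 ∧ d.1.2.2 < c.1.2.2))
  | _, _ => False

/-- The topological subgraph with edge set `S` is `k`-plane. -/
def IsKPlane (k : ℕ) (S : Set G.Edge) : Prop :=
  ∀ e ∈ S, {e' ∈ S | G.Crosses e e'}.ncard ≤ k

/-- The subgraph with edge set `S` is a forest: it has no loops, no parallel edges, and the simple
graph it forms is acyclic. -/
def IsForest (S : Set G.Edge) : Prop :=
  (∀ e ∈ S, ∀ u, ¬ G.EdgeEnds e u u) ∧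
  (∀ e ∈ S, ∀ e' ∈ S, ∀ u v, G.EdgeEnds e u v → G.EdgeEnds e' u v → e = e') ∧
  (SimpleGraph.fromRel (fun u v => ∃ e ∈ S, G.EdgeEnds e u v)).IsAcyclic

end OptimalThreePlane

open OptimalThreePlane

/-! ### The example -/

/-- the boundary walks of the six faces -/
def vt : Fin 6 → Fin 6 → Fin 14 :=
  ![![0, 1, 2, 3, 4, 5], ![1, 0, 5, 4, 3, 6], ![6, 3, 7, 8, 9, 1], ![7, 3, 2, 1, 9, 10],
    ![10, 9, 11, 12, 13, 7], ![11, 9, 8, 7, 13, 12]]

/-- the glueing -/
def ot : Fin 6 → Fin 6 → Fin 6 × Fin 6 :=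
  ![![(1, 0), (3, 2), (3, 1), (1, 3), (1, 2), (1, 1)],
    ![(0, 0), (0, 5), (0, 4), (0, 3), (2, 0), (2, 5)],
    ![(1, 4), (3, 0), (5, 2), (5, 1), (3, 3), (1, 5)],
    ![(2, 1), (0, 2), (0, 1), (2, 4), (4, 0), (4, 5)],
    ![(3, 4), (5, 0), (5, 5), (5, 4), (5, 3), (3, 5)],
    ![(4, 1), (2, 3), (2, 2), (4, 4), (4, 3), (4, 2)]]

/-- the missing diagonals -/
def mt : Fin 6 → Fin 3 := ![2, 2, 0, 2, 0, 2]

/-- The example with `14` vertices and `6` faces. -/
def example14 : OptimalThreePlane 14 6 where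
  vertex s := vt s.1 s.2
  opp s := ot s.1 s.2
  opp_opp := by decide +kernel
  opp_ne := by decide +kernel
  vertex_opp := by decide +kernel
  vertex_surjective := by decide +kernel
  single_cycle := by
    have : ∀ s t : Fin 6 × Fin 6, vt s.1 s.2 = vt t.1 t.2 →
        ∃ k : Fin 6, (fun r : Fin 6 × Fin 6 => next (ot r.1 r.2))^[k.val] s = t := by
      decide +kernel
    intro s t h
    obtain ⟨k, hk⟩ := this s t h
    exact ⟨k.val, hk⟩
  connected := by
    have step : ∀ A : Fin 6, ∀ B : Fin 6, (A.val + 1 = B.val ∨ B.val + 1 = A.val) →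
        (∃ i j : Fin 6, ot A i = (B, j)) := by decide +kernel
    have key : ∀ k : ℕ, ∀ hk : k < 6,
        Relation.ReflTransGen (fun A B : Fin 6 => ∃ i j, ot A i = (B, j)) 0 ⟨k, hk⟩ ∧
        Relation.ReflTransGen (fun A B : Fin 6 => ∃ i j, ot A i = (B, j)) ⟨k, hk⟩ 0 := by
      intro k
      induction k with
      | zero => exact fun _ => ⟨Relation.ReflTransGen.refl, Relation.ReflTransGen.refl⟩
      | succ k ih =>
        intro hk
        have h := ih (by omega)
        exact ⟨h.1.tail (step _ _ (Or.inl rfl)), Relation.ReflTransGen.head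
          (step _ _ (Or.inr rfl)) h.2⟩
    intro F F'
    exact (key F.val F.2).2.trans (key F'.val F'.2).1
  euler := by decide
  missing := mt

/-! ### Two edges per face are needed -/

/-- pairs of corners -/
abbrev Q : Type := Fin 6 × Fin 6

/-- the chords -/
def chords : Fin 3 → List Q :=
  ![[(0, 2), (0, 4), (1, 3), (1, 4), (1, 5), (2, 4), (2, 5), (3, 5)], [],
    [(0, 2), (0, 3), (0, 4), (1, 3), (1, 4), (1, 5), (2, 4), (3, 5)]]

/-- a chord with three crossings and the chords crossing it -/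
def clauses : Fin 3 → List (Q × Q × Q × Q) :=
  ![[((0, 2), (1, 3), (1, 4), (1, 5)), ((0, 4), (1, 5), (2, 5), (3, 5)),
     ((1, 3), (0, 2), (2, 4), (2, 5)), ((1, 4), (0, 2), (2, 5), (3, 5)),
     ((2, 5), (0, 4), (1, 3), (1, 4)), ((3, 5), (0, 4), (1, 4), (2, 4))], [],
    [((0, 2), (1, 3), (1, 4), (1, 5)), ((0, 3), (1, 4), (1, 5), (2, 4)),
     ((1, 4), (0, 2), (0, 3), (3, 5)), ((1, 5), (0, 2), (0, 3), (0, 4)),
     ((2, 4), (0, 3), (1, 3), (3, 5)), ((3, 5), (0, 4), (1, 4), (2, 4))]]

/-- the minimal sets hitting all clauses -/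
def opts : Fin 3 → List (List Q) :=
  ![[[(0, 2), (0, 4)], [(1, 3), (3, 5)], [(1, 4), (2, 5)], [(0, 2), (1, 4), (1, 5)],
     [(0, 2), (1, 4), (3, 5)], [(0, 2), (2, 4), (2, 5)], [(0, 2), (2, 5), (3, 5)],
     [(0, 4), (1, 3), (1, 4)], [(0, 4), (1, 3), (2, 5)], [(0, 4), (1, 4), (2, 4)],
     [(0, 4), (1, 5), (2, 5)], [(1, 3), (1, 4), (1, 5)], [(1, 3), (2, 4), (2, 5)],
     [(1, 4), (1, 5), (2, 4)], [(1, 4), (2, 4), (3, 5)], [(1, 5), (2, 4), (2, 5)],
     [(1, 5), (2, 5), (3, 5)], [(0, 2), (1, 3), (1, 5), (2, 4)],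
     [(0, 4), (1, 5), (2, 4), (3, 5)]], [],
    [[(0, 2), (2, 4)], [(0, 3), (1, 4)], [(1, 5), (3, 5)], [(0, 2), (0, 3), (0, 4)],
     [(0, 2), (0, 3), (3, 5)], [(0, 2), (1, 3), (1, 4)], [(0, 2), (1, 4), (3, 5)],
     [(0, 3), (0, 4), (1, 3)], [(0, 3), (0, 4), (1, 5)], [(0, 3), (1, 3), (2, 4)],
     [(0, 3), (1, 3), (3, 5)], [(0, 3), (1, 5), (2, 4)], [(0, 4), (1, 3), (1, 4)],
     [(0, 4), (1, 4), (2, 4)], [(0, 4), (1, 4), (3, 5)], [(1, 3), (1, 4), (1, 5)],
     [(1, 4), (1, 5), (2, 4)], [(0, 2), (0, 4), (1, 3), (1, 5)],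
     [(0, 4), (1, 3), (2, 4), (3, 5)]]]

lemma hit_bool : ∀ F : Fin 6, ((chords (mt F)).sublists.all fun S =>
    !((clauses (mt F)).all fun cl => S.contains cl.1 || S.contains cl.2.1 ||
      S.contains cl.2.2.1 || S.contains cl.2.2.2) ||
    (opts (mt F)).any fun o => o.all fun p => S.contains p) = true := by
  decide +kernel

lemma hit_aux (F : Fin 6) (S : List Q) (hS : S ∈ (chords (mt F)).sublists)
    (h : ∀ cl ∈ clauses (mt F), cl.1 ∈ S ∨ cl.2.1 ∈ S ∨ cl.2.2.1 ∈ S ∨ cl.2.2.2 ∈ S) :
    ∃ o ∈ opts (mt F), ∀ p ∈ o, p ∈ S := by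
  have h1 := List.all_eq_true.1 (hit_bool F) S hS
  rw [Bool.or_eq_true] at h1
  rcases h1 with h1 | h1
  · exfalso
    have h2 : ((clauses (mt F)).all fun cl => S.contains cl.1 || S.contains cl.2.1 ||
      S.contains cl.2.2.1 || S.contains cl.2.2.2) = true := by
      rw [List.all_eq_true]
      intro cl hcl
      have := h cl hcl
      simp only [Bool.or_eq_true, List.contains_iff_mem]
      tauto
    rw [h2] at h1
    exact absurd h1 (by decide)
  · rw [List.any_eq_true] at h1
    obtain ⟨o, ho, hp⟩ := h1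
    refine ⟨o, ho, fun p hpo => ?_⟩
    have := List.all_eq_true.1 hp p hpo
    exact List.contains_iff_mem.1 this

lemma clauses_sub : ∀ F : Fin 6, ∀ cl ∈ clauses (mt F), cl.1 ∈ chords (mt F) ∧
    cl.2.1 ∈ chords (mt F) ∧ cl.2.2.1 ∈ chords (mt F) ∧ cl.2.2.2 ∈ chords (mt F) := by
  decide +kernel

lemma hit (F : Fin 6) (T : Q → Prop)
    (h : ∀ cl ∈ clauses (mt F), T cl.1 ∨ T cl.2.1 ∨ T cl.2.2.1 ∨ T cl.2.2.2) :
    ∃ o ∈ opts (mt F), ∀ p ∈ o, T p := by
  classical
  obtain ⟨o, ho, hp⟩ := hit_aux F ((chords (mt F)).filter (fun p => decide (T p)))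
    (List.mem_sublists.2 List.filter_sublist) (by
      intro cl hcl
      have h1 := clauses_sub F cl hcl
      simp only [List.mem_filter, decide_eq_true_eq]
      rcases h cl hcl with h | h | h | h
      · exact Or.inl ⟨h1.1, h⟩
      · exact Or.inr (Or.inl ⟨h1.2.1, h⟩)
      · exact Or.inr (Or.inr (Or.inl ⟨h1.2.2.1, h⟩))
      · exact Or.inr (Or.inr (Or.inr ⟨h1.2.2.2, h⟩)))
  refine ⟨o, ho, fun p hpo => ?_⟩
  have := hp p hpo
  simp only [List.mem_filter, decide_eq_true_eq] at this
  exact this.2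

lemma clause {n f : ℕ} (G : OptimalThreePlane n f) (E1 E2 : Set G.Edge)
    (hc : ∀ e, e ∈ E1 ∨ e ∈ E2) (h : G.IsKPlane 2 E1) (p q1 q2 q3 : G.Edge)
    (h12 : q1 ≠ q2) (h13 : q1 ≠ q3) (h23 : q2 ≠ q3) (c1 : G.Crosses p q1)
    (c2 : G.Crosses p q2) (c3 : G.Crosses p q3) :
    p ∈ E2 ∨ q1 ∈ E2 ∨ q2 ∈ E2 ∨ q3 ∈ E2 := by
  by_contra hcon
  push Not at hcon
  obtain ⟨hp, h1, h2, h3⟩ := hcon
  have hp' := (hc p).resolve_right hp
  have h1' := (hc q1).resolve_right h1
  have h2' := (hc q2).resolve_right h2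
  have h3' := (hc q3).resolve_right h3
  have hle := h p hp'
  have hsub : ({q1, q2, q3} : Set G.Edge) ⊆ {e' ∈ E1 | G.Crosses p e'} := by
    intro x hx
    simp only [Set.mem_insert_iff, Set.mem_singleton_iff] at hx
    rcases hx with rfl | rfl | rfl
    · exact ⟨h1', c1⟩
    · exact ⟨h2', c2⟩
    · exact ⟨h3', c3⟩
  have hcard : ({q1, q2, q3} : Set G.Edge).ncard = 3 := by
    exact Set.ncard_eq_three.2 ⟨q1, q2, q3, h12, h13, h23, rfl⟩
  have := Set.ncard_le_ncard hsub (Set.toFinite _)
  omega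

/-- a chord of the example belongs to the edge set `E2` -/
def T (E2 : Set example14.Edge) (c : Fin 6 × Fin 6 × Fin 6) : Prop :=
  ∃ h : example14.IsChord c, (Sum.inr ⟨c, h⟩ : example14.Edge) ∈ E2

/-- the ends of the pairs alternate -/
def crossQ (p q : Q) : Bool :=
  (decide (p.1 < q.1) && decide (q.1 < p.2) && decide (p.2 < q.2)) ||
    (decide (q.1 < p.1) && decide (p.1 < q.2) && decide (q.2 < p.2))

lemma chords_ok : ∀ F : Fin 6, ∀ p ∈ chords (mt F), example14.IsChord (F, p) := by
  decide +kernel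

lemma clauses_ok : ∀ F : Fin 6, ∀ cl ∈ clauses (mt F), (cl.2.1 ≠ cl.2.2.1 ∧ cl.2.1 ≠ cl.2.2.2 ∧
    cl.2.2.1 ≠ cl.2.2.2) ∧ crossQ cl.1 cl.2.1 = true ∧ crossQ cl.1 cl.2.2.1 = true ∧
    crossQ cl.1 cl.2.2.2 = true := by
  decide +kernel

lemma crosses_of (F : Fin 6) (p q : Q) (hp : example14.IsChord (F, p))
    (hq : example14.IsChord (F, q)) (h : crossQ p q = true) :
    example14.Crosses (Sum.inr ⟨(F, p), hp⟩) (Sum.inr ⟨(F, q), hq⟩) := by
  simp only [crossQ, Bool.or_eq_true, Bool.and_eq_true, decide_eq_true_eq] at h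
  refine ⟨rfl, ?_⟩
  rcases h with h | h
  · exact Or.inl ⟨h.1.1, h.1.2, h.2⟩
  · exact Or.inr ⟨h.1.1, h.1.2, h.2⟩

lemma exists_opt (E1 E2 : Set example14.Edge) (hc : ∀ e, e ∈ E1 ∨ e ∈ E2)
    (h : example14.IsKPlane 2 E1) (F : Fin 6) :
    ∃ o ∈ opts (mt F), ∀ p ∈ o, T E2 (F, p) := by
  apply hit F (fun p => T E2 (F, p))
  intro cl hcl
  obtain ⟨m0, m1, m2, m3⟩ := clauses_sub F cl hcl
  obtain ⟨⟨d1, d2, d3⟩, c1, c2, c3⟩ := clauses_ok F cl hcl
  have k0 := chords_ok F _ m0
  have k1 := chords_ok F _ m1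
  have k2 := chords_ok F _ m2
  have k3 := chords_ok F _ m3
  have := clause example14 E1 E2 hc h (Sum.inr ⟨(F, cl.1), k0⟩) (Sum.inr ⟨(F, cl.2.1), k1⟩)
    (Sum.inr ⟨(F, cl.2.2.1), k2⟩) (Sum.inr ⟨(F, cl.2.2.2), k3⟩)
    (fun e => d1 (by simpa using e)) (fun e => d2 (by simpa using e))
    (fun e => d3 (by simpa using e)) (crosses_of F _ _ _ _ c1) (crosses_of F _ _ _ _ c2)
    (crosses_of F _ _ _ _ c3)
  rcases this with h | h | h | h
  · exact Or.inl ⟨k0, h⟩
  · exact Or.inr (Or.inl ⟨k1, h⟩)
  · exact Or.inr (Or.inr (Or.inl ⟨k2, h⟩))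
  · exact Or.inr (Or.inr (Or.inr ⟨k3, h⟩))

/-! ### The search -/

/-- chords with their face -/
abbrev C : Type := Fin 6 × Fin 6 × Fin 6

/-- first end -/
def ea (c : C) : Fin 14 := vt c.1 c.2.1

/-- second end -/
def eb (c : C) : Fin 14 := vt c.1 c.2.2

/-- the graph formed by a list of chords -/
def gr (L : List C) : SimpleGraph (Fin 14) :=
  SimpleGraph.fromRel (fun u v => ∃ c ∈ L, u = ea c ∧ v = eb c)

/-- labels of components are compatible with a list of chords -/
def Inv (L : List C) (lab : List ℕ) : Prop :=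
  ∀ u v : Fin 14, lab.getD u.val 0 = lab.getD v.val 0 → (gr L).Reachable u v

/-- add a list of chords; `none` if a cycle arises -/
def add : List C → List C → List ℕ → Option (List C × List ℕ)
  | [], L, lab => some (L, lab)
  | c :: cs, L, lab =>
    if L.contains c then add cs L lab
    else if lab.getD (ea c).val 0 = lab.getD (eb c).val 0 then none
    else add cs (c :: L) (lab.map fun x =>
      if x = lab.getD (eb c).val 0 then lab.getD (ea c).val 0 else x)

/-- the search shows that there is no solution -/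
def refute : List (Fin 6) → List C → List ℕ → Bool
  | [], _, _ => false
  | F :: Fs, L, lab => (opts (mt F)).all fun o =>
    match add (o.map fun p => (F, p)) L lab with
    | none => true
    | some (L', lab') => refute Fs L' lab'

lemma refute_true : refute [0, 1, 2, 3, 4, 5] [] [0, 1, 2, 3, 4, 5, 6, 7, 8, 9, 10, 11, 12, 13]
    = true := by
  decide +kernel

/-! ### Soundness of the search -/

lemma ends_eq (c : C) (h : example14.IsChord c) :
    example14.EdgeEnds (Sum.inr ⟨c, h⟩) (ea c) (eb c) :=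
  Or.inl ⟨rfl, rfl⟩

lemma ends_eq' (c : C) (h : example14.IsChord c) :
    example14.EdgeEnds (Sum.inr ⟨c, h⟩) (eb c) (ea c) :=
  Or.inr ⟨rfl, rfl⟩

lemma not_reachable (E2 : Set example14.Edge) (hF : example14.IsForest E2) (L : List C)
    (hL : ∀ c ∈ L, T E2 c) (c : C) (hc : T E2 c) (hcL : c ∉ L) :
    ¬ (gr L).Reachable (ea c) (eb c) := by
  intro hr
  obtain ⟨hloop, hpar, hac⟩ := hF
  obtain ⟨hch, hcE⟩ := hc
  have hne : ea c ≠ eb c := by
    intro h
    refine hloop _ hcE (ea c) ?_
    have := ends_eq c hch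
    rw [← h] at this
    exact this
  have hadj : (SimpleGraph.fromRel (fun u v => ∃ e ∈ E2, example14.EdgeEnds e u v)).Adj
      (ea c) (eb c) := by
    rw [SimpleGraph.fromRel_adj]
    exact ⟨hne, Or.inl ⟨_, hcE, ends_eq c hch⟩⟩
  have hb := (SimpleGraph.isAcyclic_iff_forall_adj_isBridge.1 hac) hadj
  rw [SimpleGraph.isBridge_iff] at hb
  refine hb (hr.mono ?_)
  intro x y hxy
  unfold gr at hxy
  rw [SimpleGraph.fromRel_adj] at hxy
  obtain ⟨hxy, h⟩ := hxy
  rw [SimpleGraph.deleteEdges_adj]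
  have key : ∀ d ∈ L, ∀ x y : Fin 14, ((x = ea d ∧ y = eb d) ∨ (y = ea d ∧ x = eb d)) →
      (SimpleGraph.fromRel (fun u v => ∃ e ∈ E2, example14.EdgeEnds e u v)).Adj x y ∧
      s(x, y) ∉ ({s(ea c, eb c)} : Set (Sym2 (Fin 14))) := by
    intro d hd x y hxy'
    obtain ⟨hdch, hdE⟩ := hL d hd
    have hned : ea d ≠ eb d := by
      intro h
      refine hloop _ hdE (ea d) ?_
      have := ends_eq d hdch
      rw [← h] at this
      exact this
    have hends : example14.EdgeEnds (Sum.inr ⟨d, hdch⟩) x y := by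
      rcases hxy' with ⟨rfl, rfl⟩ | ⟨rfl, rfl⟩
      · exact ends_eq d hdch
      · exact ends_eq' d hdch
    constructor
    · rw [SimpleGraph.fromRel_adj]
      refine ⟨?_, Or.inl ⟨_, hdE, hends⟩⟩
      rcases hxy' with ⟨rfl, rfl⟩ | ⟨rfl, rfl⟩
      · exact hned
      · exact hned.symm
    · intro hcon
      have h1 := hcon
      rw [Set.mem_singleton_iff, Sym2.eq_iff] at h1
      have hc' : example14.EdgeEnds (Sum.inr ⟨c, hch⟩) x y := by
        rcases h1 with ⟨rfl, rfl⟩ | ⟨rfl, rfl⟩
        · exact ends_eq c hch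
        · exact ends_eq' c hch
      have := hpar _ hdE _ hcE x y hends hc'
      have hdc : d = c := by simpa using this
      exact hcL (hdc ▸ hd)
  rcases h with ⟨d, hd, h1, h2⟩ | ⟨d, hd, h1, h2⟩
  · exact key d hd x y (Or.inl ⟨h1, h2⟩)
  · exact key d hd x y (Or.inr ⟨h1, h2⟩)

lemma add_sound (E2 : Set example14.Edge) (hF : example14.IsForest E2) (cs : List C) :
    ∀ (L : List C) (lab : List ℕ), lab.length = 14 → (∀ c ∈ L, T E2 c) → Inv L lab →
    (∀ c ∈ cs, T E2 c) →
    ∃ L' lab', add cs L lab = some (L', lab') ∧ lab'.length = 14 ∧ (∀ c ∈ L', T E2 c) ∧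
      Inv L' lab' := by
  induction cs with
  | nil =>
    intro L lab hlen hL hI _
    exact ⟨L, lab, rfl, hlen, hL, hI⟩
  | cons c cs ih =>
    intro L lab hlen hL hI hcs
    unfold add
    split_ifs with h1 h2
    · exact ih L lab hlen hL hI (fun d hd => hcs d (List.mem_cons_of_mem _ hd))
    · exfalso
      have hcL : c ∉ L := fun h => h1 (List.contains_iff_mem.2 h)
      exact not_reachable E2 hF L hL c (hcs c List.mem_cons_self) hcL (hI _ _ h2)
    · have hcL : c ∉ L := fun h => h1 (List.contains_iff_mem.2 h)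
      refine ih (c :: L) _ (by simpa using hlen) ?_ ?_
        (fun d hd => hcs d (List.mem_cons_of_mem _ hd))
      · intro d hd
        rcases List.mem_cons.1 hd with rfl | hd
        · exact hcs _ List.mem_cons_self
        · exact hL d hd
      · intro u v huv
        have hmono : gr L ≤ gr (c :: L) := by
          intro x y hxy
          unfold gr at hxy ⊢
          rw [SimpleGraph.fromRel_adj] at hxy ⊢
          refine ⟨hxy.1, ?_⟩
          rcases hxy.2 with ⟨d, hd, h⟩ | ⟨d, hd, h⟩
          · exact Or.inl ⟨d, List.mem_cons_of_mem _ hd, h⟩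
          · exact Or.inr ⟨d, List.mem_cons_of_mem _ hd, h⟩
        have hcE := hcs c List.mem_cons_self
        have hedge : (gr (c :: L)).Reachable (ea c) (eb c) := by
          by_cases he : ea c = eb c
          · rw [he]
          · refine SimpleGraph.Adj.reachable ?_
            unfold gr
            rw [SimpleGraph.fromRel_adj]
            exact ⟨he, Or.inl ⟨c, List.mem_cons_self, rfl, rfl⟩⟩
        have hu := u.2
        have hv := v.2
        have e1 : ∀ w : Fin 14, (lab.map fun x =>
            if x = lab.getD (eb c).val 0 then lab.getD (ea c).val 0 else x).getD w.val 0 =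
            if lab.getD w.val 0 = lab.getD (eb c).val 0 then lab.getD (ea c).val 0
            else lab.getD w.val 0 := by
          intro w
          have hw : w.val < lab.length := by rw [hlen]; exact w.2
          rw [List.getD_eq_getElem _ _ (by simpa using hw), List.getElem_map,
            List.getD_eq_getElem lab _ hw]
        rw [e1 u, e1 v] at huv
        split_ifs at huv with h3 h4 h4
        · exact (hI u v (h3.trans h4.symm)).mono hmono
        · have a1 := (hI u (eb c) h3).mono hmono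
          have a2 := (hI (ea c) v huv).mono hmono
          exact a1.trans (hedge.symm.trans a2)
        · have a1 := (hI u (ea c) huv).mono hmono
          have a2 := (hI v (eb c) h4).mono hmono
          exact a1.trans (hedge.trans a2.symm)
        · exact (hI u v huv).mono hmono

lemma refute_sound (E2 : Set example14.Edge) (hF : example14.IsForest E2)
    (hopt : ∀ F : Fin 6, ∃ o ∈ opts (mt F), ∀ p ∈ o, T E2 (F, p)) (Fs : List (Fin 6)) :
    ∀ (L : List C) (lab : List ℕ), lab.length = 14 → (∀ c ∈ L, T E2 c) → Inv L lab →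
    refute Fs L lab = true → False := by
  induction Fs with
  | nil =>
    intro L lab _ _ _ h
    exact absurd h (by simp [refute])
  | cons F Fs ih =>
    intro L lab hlen hL hI h
    obtain ⟨o, ho, hp⟩ := hopt F
    unfold refute at h
    have h1 := List.all_eq_true.1 h o ho
    obtain ⟨L', lab', he, hlen', hL', hI'⟩ := add_sound E2 hF (o.map fun p => (F, p)) L lab hlen hL
      hI (by
        intro c hc
        obtain ⟨p, hpo, rfl⟩ := List.mem_map.1 hc
        exact hp p hpo)
    rw [he] at h1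
    exact ih L' lab' hlen' hL' hI' h1

lemma inv_init : Inv [] [0, 1, 2, 3, 4, 5, 6, 7, 8, 9, 10, 11, 12, 13] := by
  have : ∀ u v : Fin 14, ([0, 1, 2, 3, 4, 5, 6, 7, 8, 9, 10, 11, 12, 13] : List ℕ).getD u.val 0 =
    ([0, 1, 2, 3, 4, 5, 6, 7, 8, 9, 10, 11, 12, 13] : List ℕ).getD v.val 0 → u = v := by
    decide +kernel
  intro u v h
  rw [this u v h]

lemma no_partition (E1 E2 : Set example14.Edge) (hc : E1 ∪ E2 = Set.univ) :
    ¬ (example14.IsKPlane 2 E1 ∧ example14.IsForest E2) := by
  rintro ⟨h1, h2⟩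
  have hc' : ∀ e, e ∈ E1 ∨ e ∈ E2 := by
    intro e
    have : e ∈ E1 ∪ E2 := by rw [hc]; trivial
    exact this
  exact refute_sound E2 h2 (exists_opt E1 E2 hc' h1) [0, 1, 2, 3, 4, 5] []
    [0, 1, 2, 3, 4, 5, 6, 7, 8, 9, 10, 11, 12, 13] rfl (by simp) inv_init refute_true

lemma three_plane : example14.IsKPlane 3 Set.univ := by
  intro e _
  rcases e with e | c
  · have : {e' ∈ (Set.univ : Set example14.Edge) | example14.Crosses (Sum.inl e) e'} = ∅ := by
      ext x
      simp [Crosses]
    rw [this]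
    simp
  · have key : ∀ c : C, example14.IsChord c →
        (Finset.univ.filter fun q : Q => example14.IsChord (c.1, q) ∧ crossQ c.2 q = true).card ≤ 3
        := by decide +kernel
    have h1 := key c.1 c.2
    let g : Q → Option C := fun q => some (c.1.1, q)
    let h : example14.Edge → Option C := Sum.elim (fun _ => none) (fun d => some d.1)
    have h2 : {e' ∈ (Set.univ : Set example14.Edge) | example14.Crosses (Sum.inr c) e'}.ncard ≤
        (((Finset.univ.filter fun q : Q => example14.IsChord (c.1.1, q) ∧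
          crossQ c.1.2 q = true).image g : Finset (Option C)) : Set (Option C)).ncard := by
      refine Set.ncard_le_ncard_of_injOn h ?_ ?_ (Finset.finite_toSet _)
      · rintro (e | d) ⟨-, he⟩
        · exact he.elim
        · obtain ⟨he1, he2⟩ := he
          simp only [Finset.coe_image, Finset.coe_filter, Finset.mem_univ, true_and,
            Set.mem_image, Set.mem_ofPred_eq]
          have hd : d.1 = (c.1.1, d.1.2) := by rw [he1]
          refine ⟨d.1.2, ⟨hd ▸ d.2, ?_⟩, ?_⟩
          · simp only [crossQ, Bool.or_eq_true, Bool.and_eq_true, decide_eq_true_eq]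
            rcases he2 with ⟨a, b, c⟩ | ⟨a, b, c⟩
            · exact Or.inl ⟨⟨a, b⟩, c⟩
            · exact Or.inr ⟨⟨a, b⟩, c⟩
          · exact congrArg some hd.symm
      · rintro (e | d) ⟨-, he⟩ (e' | d') ⟨-, he'⟩ heq
        · exact he.elim
        · exact he.elim
        · exact he'.elim
        · simp only [h, Sum.elim_inr, Option.some.injEq] at heq
          rw [Subtype.ext heq]
    refine h2.trans ?_
    rw [Set.ncard_coe_finset]
    exact Finset.card_image_le.trans h1

/-- number of a side -/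
def code (s : Fin 6 × Fin 6) : ℕ := 6 * s.1.val + s.2.val

lemma card_edge : Nat.card example14.Edge = 66 := by
  have h1 : Nat.card {c : C // example14.IsChord c} = 48 := by
    rw [Nat.card_eq_fintype_card]
    decide +kernel
  have h2 : Nat.card {e : Sym2 (Fin 6 × Fin 6) // ∃ s, e = s(s, example14.opp s)} = 18 := by
    have hcard : Nat.card {s : Fin 6 × Fin 6 // code s < code (ot s.1 s.2)} = 18 := by
      rw [Nat.card_eq_fintype_card]
      decide +kernel
    rw [← hcard]
    symm
    apply Nat.card_congr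
    have hne : ∀ s : Fin 6 × Fin 6, code s < code (ot s.1 s.2) ∨
        code (ot s.1 s.2) < code (ot (ot s.1 s.2).1 (ot s.1 s.2).2) := by decide +kernel
    refine Equiv.ofBijective (fun s => ⟨s(s.1, example14.opp s.1), s.1, rfl⟩) ⟨?_, ?_⟩
    · intro s t hst
      have h3 := congrArg Subtype.val hst
      simp only at h3
      rw [Sym2.eq_iff] at h3
      rcases h3 with ⟨h3, -⟩ | ⟨h3, h4⟩
      · exact Subtype.ext h3
      · exfalso
        have hs := s.2
        have ht := t.2
        have h5 : ot s.1.1 s.1.2 = t.1 := h4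
        have h6 : s.1 = ot t.1.1 t.1.2 := h3
        rw [h5] at hs
        rw [← h6] at ht
        omega
    · rintro ⟨e, s, rfl⟩
      rcases hne s with h3 | h3
      · exact ⟨⟨s, h3⟩, rfl⟩
      · refine ⟨⟨ot s.1 s.2, h3⟩, ?_⟩
        apply Subtype.ext
        simp only
        have h4 := example14.opp_opp s
        rw [Sym2.eq_iff]
        exact Or.inr ⟨rfl, h4⟩
  rw [Nat.card_sum, h1, h2]

/-- There is an optimal 3-plane graph (with `14` vertices and `66 = 5.5 * 14 - 11` edges), all
whose faces of crossing-free edges are bounded by six-cycles, which has no edge partition into a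
2-plane graph and a forest. -/
theorem result : ∃ G : OptimalThreePlane 14 6,
    (∀ F, Function.Injective fun i => G.vertex (F, i)) ∧
    (∀ s t, G.vertex s = G.vertex t → G.vertex (next s) = G.vertex (next t) → s = t) ∧
    G.IsKPlane 3 Set.univ ∧
    2 * Nat.card G.Edge + 22 = 11 * 14 ∧
    ∀ E1 E2 : Set G.Edge, E1 ∪ E2 = Set.univ → Disjoint E1 E2 →
      ¬ (G.IsKPlane 2 E1 ∧ G.IsForest E2) := by
  refine ⟨example14, ?_, ?_, ?_, ?_, fun E1 E2 hc _ => no_partition E1 E2 hc⟩
  · have : ∀ F i j : Fin 6, vt F i = vt F j → i = j := by decide +kernel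
    exact fun F i j h => this F i j h
  · have : ∀ s t : Fin 6 × Fin 6, vt s.1 s.2 = vt t.1 t.2 →
        vt s.1 (s.2 + 1) = vt t.1 (t.2 + 1) → s = t := by decide +kernel
    exact this
  · exact three_plane
  · rw [card_edge]

end Pool.Agent.Results.MP_d99f1b_co.NoForestPartition
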